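import Pool.Agent.Helper99.AA.Basic
import Pool.Agent.Helper7.MR.H2

set_option autoImplicit false

/-! Row AV of the project AA: averaging over short blocks. -/

open Finset MeasureTheory
open scoped BigOperators Nat

namespace Pool.Agent.Helper10.AA

open Pool.Agent.Helper99.AA Pool.Agent.Helper40.MR

section av

variable {F : ℝ → ℝ}

theorem av_block (hF : Measurable F) (hF1 : ∀ u, 0 ≤ u → 0 ≤ F u ∧ F u ≤ u) {C B h x y : ℝ}
    (hC : 0 < C) (hB : 0 ≤ B) (hh : 1 ≤ h) (hx : 0 < x) (hy : 1 ≤ y)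
    (hF2 : ∀ u v, 0 < v → v ≤ u → u ≤ v * (1 + 1 / h) → |F u - F v| ≤ B * (v / h))
    (hBT : ∑ d ∈ IocN y (y + y / h), ArithmeticFunction.vonMangoldt d ≤ C * (y / h)) :
    ∑ d ∈ IocN y (y + y / h), ArithmeticFunction.vonMangoldt d * F (x / d) ≤
      C * (∫ t in y..(y + y / h), F (x / t)) + C * B * x / h ^ 2 := by
  have hy0 : 0 < y := by linarith
  have hh0 : 0 < h := by linarith
  have hyh : 0 < y / h := by positivity
  set I : ℝ := ∫ t in y..(y + y / h), F (x / t) with hI
  have hint := h2_intble hF hF1 (x := x) (a := y) (b := y + y / h) hx.le hy (by linarith)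
  have hI0 : 0 ≤ I := by
    rw [hI]
    refine intervalIntegral.integral_nonneg (by linarith) fun t ht => ?_
    have ht0 : 0 < t := by linarith [ht.1]
    exact (hF1 (x / t) (by positivity)).1
  have key : ∀ s t : ℝ, y ≤ s → s ≤ t → t ≤ y + y / h → |F (x / s) - F (x / t)| ≤
      B * (x / (y * h)) := by
    intro s t hs hst ht
    have hs0 : 0 < s := by linarith
    have ht0 : 0 < t := by linarith
    have h1 := hF2 (x / s) (x / t) (by positivity) (div_le_div_of_nonneg_left hx.le hs0 hst) (by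
      rw [div_mul_eq_mul_div, div_le_div_iff₀ hs0 ht0, mul_assoc]
      refine mul_le_mul_of_nonneg_left ?_ hx.le
      have h2 : y + y / h ≤ (1 + 1 / h) * s := by
        have h3 : y + y / h = (1 + 1 / h) * y := by
          field_simp
        rw [h3]
        exact mul_le_mul_of_nonneg_left hs (by positivity)
      linarith)
    refine h1.trans ?_
    refine mul_le_mul_of_nonneg_left ?_ hB
    rw [div_div]
    exact div_le_div_of_nonneg_left hx.le (by positivity)
      (mul_le_mul_of_nonneg_right (by linarith) hh0.le)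
  have hR : ∀ d ∈ IocN y (y + y / h), F (x / d) ≤ I / (y / h) + B * (x / (y * h)) := by
    intro d hd
    unfold IocN at hd
    rw [mem_Ioc] at hd
    have hd1 : y < d := Nat.lt_of_floor_lt hd.1
    have hd2 : (d : ℝ) ≤ y + y / h := (Nat.le_floor_iff (by positivity)).1 hd.2
    have hd0 : (0 : ℝ) < d := by linarith
    have hpt : ∀ t ∈ Set.Icc y (y + y / h), F (x / d) - B * (x / (y * h)) ≤ F (x / t) := by
      intro t ht
      rcases le_total (d : ℝ) t with hdt | hdt
      · have h1 := (abs_le.1 (key d t hd1.le hdt ht.2)).2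
        linarith
      · have h1 := (abs_le.1 (key t d ht.1 hdt hd2)).1
        linarith
    have h6 : ∫ t in y..(y + y / h), (F (x / d) - B * (x / (y * h))) ≤ I := by
      rw [hI]
      exact intervalIntegral.integral_mono_on (by linarith) (by simp) hint hpt
    rw [intervalIntegral.integral_const, smul_eq_mul] at h6
    have h7 : y + y / h - y = y / h := by ring
    rw [h7] at h6
    have h8 : F (x / d) - B * (x / (y * h)) ≤ I / (y / h) := by
      rw [le_div_iff₀ hyh]
      linarith
    linarith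
  have hR0 : 0 ≤ I / (y / h) + B * (x / (y * h)) := by positivity
  calc ∑ d ∈ IocN y (y + y / h), ArithmeticFunction.vonMangoldt d * F (x / d)
      ≤ ∑ d ∈ IocN y (y + y / h), ArithmeticFunction.vonMangoldt d *
        (I / (y / h) + B * (x / (y * h))) := sum_le_sum fun d hd =>
          mul_le_mul_of_nonneg_left (hR d hd) ArithmeticFunction.vonMangoldt_nonneg
    _ = (∑ d ∈ IocN y (y + y / h), ArithmeticFunction.vonMangoldt d) *
        (I / (y / h) + B * (x / (y * h))) := by rw [sum_mul]
    _ ≤ (C * (y / h)) * (I / (y / h) + B * (x / (y * h))) :=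
        mul_le_mul_of_nonneg_right hBT hR0
    _ = C * I + C * B * x / h ^ 2 := by
        field_simp

end av

theorem av_core {C B h y0 : ℝ} (hC : 0 < C) (hB : 0 ≤ B) (hh : 1 ≤ h)
    (hy0 : ∀ y : ℝ, y0 ≤ y →
      ∑ d ∈ IocN y (y + y / h), ArithmeticFunction.vonMangoldt d ≤ C * (y / h)) :
    ∃ x₀ : ℝ, ∀ (x : ℝ) (F : ℝ → ℝ), x₀ ≤ x → Measurable F →
      (∀ u, 0 ≤ u → 0 ≤ F u ∧ F u ≤ u) →
      (∀ u v, 0 < v → v ≤ u → u ≤ v * (1 + 1 / h) → |F u - F v| ≤ B * (v / h)) →
      0 < x ∧ ∑ d ∈ Icc 1 ⌊x⌋₊, ArithmeticFunction.vonMangoldt d * F (x / d) ≤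
        C * (x * ∫ u in (1 : ℝ)..x, F u / u ^ 2) +
          (1 + C + 3 * C * B) * (x * Real.log x / h) := by
  have hh0 : 0 < h := by linarith
  set Y : ℝ := max y0 1 with hY
  have hY1 : 1 ≤ Y := le_max_right _ _
  have hYy : y0 ≤ Y := le_max_left _ _
  have hY0 : 0 < Y := by linarith
  set K : ℝ := ∑ d ∈ Icc 1 ⌊Y⌋₊, ArithmeticFunction.vonMangoldt d / d with hK
  have hK0 : 0 ≤ K := by
    rw [hK]
    exact sum_nonneg fun d _ => div_nonneg ArithmeticFunction.vonMangoldt_nonneg (by positivity)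
  refine ⟨max (Real.exp (h * (K + 1))) Y, ?_⟩
  intro x F hx hF hF1 hF2
  have hxY : Y ≤ x := (le_max_right _ _).trans hx
  have hxe : Real.exp (h * (K + 1)) ≤ x := (le_max_left _ _).trans hx
  have hx0 : 0 < x := by linarith
  have hlog : h * (K + 1) ≤ Real.log x := by
    rw [Real.le_log_iff_exp_le hx0]
    exact hxe
  have hlog1 : 1 ≤ Real.log x := by nlinarith
  set g : ℕ → ℝ := fun d => ArithmeticFunction.vonMangoldt d * F (x / d) with hg
  have hg0 : ∀ d, 0 ≤ g d := fun d =>
    mul_nonneg ArithmeticFunction.vonMangoldt_nonneg (hF1 _ (by positivity)).1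
  set y : ℕ → ℝ := fun n => Y * (1 + 1 / h) ^ n with hy
  have hyS : ∀ n, y (n + 1) = y n + y n / h := by
    intro n
    simp only [hy]
    rw [pow_succ]
    field_simp
  have hyY : ∀ n, Y ≤ y n := by
    intro n
    simp only [hy]
    have : 1 ≤ (1 + 1 / h) ^ n := one_le_pow₀ (by
      have : 0 < 1 / h := by positivity
      linarith)
    nlinarith
  have hy00 : y 0 = Y := by simp only [hy, pow_zero, mul_one]
  -- induction over the blocks
  have hind : ∀ n : ℕ, ∑ d ∈ Icc 1 ⌊y n⌋₊, g d ≤ ∑ d ∈ Icc 1 ⌊Y⌋₊, g d +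
      C * (∫ t in Y..y n, F (x / t)) + n * (C * B * x / h ^ 2) := by
    intro n
    induction n with
    | zero =>
      rw [hy00, intervalIntegral.integral_same]
      simp
    | succ n ih =>
      have hyn1 : 1 ≤ y n := hY1.trans (hyY n)
      have hyn0 : 0 < y n := by linarith
      have hle : y n ≤ y (n + 1) := by
        rw [hyS]
        have : 0 < y n / h := by positivity
        linarith
      have hfl : ⌊y n⌋₊ ≤ ⌊y (n + 1)⌋₊ := Nat.floor_mono hle
      have hsplit : ∑ d ∈ Icc 1 ⌊y (n + 1)⌋₊, g d =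
          ∑ d ∈ Icc 1 ⌊y n⌋₊, g d + ∑ d ∈ IocN (y n) (y n + y n / h), g d := by
        unfold IocN
        rw [← hyS n, ← sum_union]
        · congr 1
          ext d
          simp only [mem_Icc, mem_union, mem_Ioc]
          omega
        · rw [disjoint_left]
          intro d hd hd'
          rw [mem_Icc] at hd
          rw [mem_Ioc] at hd'
          omega
      have hblk := av_block hF hF1 hC hB hh hx0 hyn1 hF2
        (hy0 (y n) (hYy.trans (hyY n)))
      have hadj : (∫ t in Y..y n, F (x / t)) + ∫ t in (y n)..(y (n + 1)), F (x / t) =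
          ∫ t in Y..y (n + 1), F (x / t) :=
        intervalIntegral.integral_add_adjacent_intervals
          (h2_intble hF hF1 hx0.le hY1 hyn1)
          (h2_intble hF hF1 hx0.le hyn1 (hyn1.trans hle))
      rw [hsplit, ← hadj]
      rw [hyS n]
      push_cast
      have h9 : ∑ d ∈ IocN (y n) (y n + y n / h), g d ≤
        C * (∫ t in (y n)..(y n + y n / h), F (x / t)) + C * B * x / h ^ 2 := hblk
      nlinarith [ih, h9]
  -- the last block
  have hex : ∃ n, x ≤ y n := by
    refine ⟨⌈2 * h * Real.log x⌉₊, ?_⟩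
    have h1 : 1 / (2 * h) ≤ Real.log (1 + 1 / h) := by
      have h2 := Real.one_sub_inv_le_log_of_pos (show 0 < 1 + 1 / h by positivity)
      refine le_trans ?_ h2
      have h3 : 1 - (1 + 1 / h)⁻¹ = 1 / (h + 1) := by
        field_simp
        ring
      rw [h3]
      exact one_div_le_one_div_of_le (by positivity) (by linarith)
    have h4 : Real.log x ≤ (⌈2 * h * Real.log x⌉₊ : ℝ) * Real.log (1 + 1 / h) := by
      have h5 := Nat.le_ceil (2 * h * Real.log x)
      calc Real.log x = (2 * h * Real.log x) * (1 / (2 * h)) := by field_simp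
        _ ≤ (⌈2 * h * Real.log x⌉₊ : ℝ) * Real.log (1 + 1 / h) := by gcongr
    have h6 : x ≤ (1 + 1 / h) ^ ⌈2 * h * Real.log x⌉₊ := by
      rw [← Real.log_le_log_iff hx0 (by positivity), Real.log_pow]
      exact h4
    simp only [hy]
    have h7 : 0 ≤ (1 + 1 / h) ^ ⌈2 * h * Real.log x⌉₊ := by positivity
    nlinarith
  classical
  set n := Nat.find hex with hn
  have hnx : x ≤ y n := Nat.find_spec hex
  have hn2 : y n ≤ 2 * x := by
    rcases Nat.eq_zero_or_pos n with h0 | hpos
    · rw [h0, hy00]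
      linarith
    · obtain ⟨k, hk⟩ := Nat.exists_eq_succ_of_ne_zero hpos.ne'
      have h1 : y k < x := by
        have h2 := Nat.find_min hex (m := k) (by rw [← hn, hk]; exact Nat.lt_succ_self k)
        exact not_le.1 h2
      rw [hk, Nat.succ_eq_add_one, hyS]
      have h3 : y k / h ≤ y k := div_le_self (by linarith [hyY k]) hh
      linarith
  have hnle : (n : ℝ) ≤ 2 * h * Real.log x + 1 := by
    have h1 : n ≤ ⌈2 * h * Real.log x⌉₊ := by
      refine Nat.find_min' hex ?_
      have h1 : 1 / (2 * h) ≤ Real.log (1 + 1 / h) := by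
        have h2 := Real.one_sub_inv_le_log_of_pos (show 0 < 1 + 1 / h by positivity)
        refine le_trans ?_ h2
        have h3 : 1 - (1 + 1 / h)⁻¹ = 1 / (h + 1) := by
          field_simp
          ring
        rw [h3]
        exact one_div_le_one_div_of_le (by positivity) (by linarith)
      have h4 : Real.log x ≤ (⌈2 * h * Real.log x⌉₊ : ℝ) * Real.log (1 + 1 / h) := by
        have h5 := Nat.le_ceil (2 * h * Real.log x)
        calc Real.log x = (2 * h * Real.log x) * (1 / (2 * h)) := by field_simp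
          _ ≤ (⌈2 * h * Real.log x⌉₊ : ℝ) * Real.log (1 + 1 / h) := by gcongr
      have h6 : x ≤ (1 + 1 / h) ^ ⌈2 * h * Real.log x⌉₊ := by
        rw [← Real.log_le_log_iff hx0 (by positivity), Real.log_pow]
        exact h4
      simp only [hy]
      have h7 : 0 ≤ (1 + 1 / h) ^ ⌈2 * h * Real.log x⌉₊ := by positivity
      nlinarith
    have h2 : (n : ℝ) ≤ (⌈2 * h * Real.log x⌉₊ : ℝ) := by exact_mod_cast h1
    have h3 := Nat.ceil_lt_add_one (show 0 ≤ 2 * h * Real.log x by positivity)
    linarith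
  -- small `d`
  have hsmall : ∑ d ∈ Icc 1 ⌊Y⌋₊, g d ≤ x * K := by
    rw [hK, mul_sum]
    refine sum_le_sum fun d hd => ?_
    have h1 := (hF1 (x / d) (by positivity)).2
    calc g d ≤ ArithmeticFunction.vonMangoldt d * (x / d) :=
          mul_le_mul_of_nonneg_left h1 ArithmeticFunction.vonMangoldt_nonneg
      _ = _ := by ring
  -- the integral
  have hint : ∫ t in Y..y n, F (x / t) ≤ x * (∫ u in (1 : ℝ)..x, F u / u ^ 2) + x := by
    have hx1 : 1 ≤ x := hY1.trans hxY
    have hadj : (∫ t in Y..x, F (x / t)) + ∫ t in x..(y n), F (x / t) =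
        ∫ t in Y..y n, F (x / t) :=
      intervalIntegral.integral_add_adjacent_intervals
        (h2_intble hF hF1 hx0.le hY1 hx1)
        (h2_intble hF hF1 hx0.le hx1 (hx1.trans hnx))
    rw [← hadj]
    have h1 := h2_subst hF hF1 hY1 hxY
    have h2 : ∫ t in x..(y n), F (x / t) ≤ x := by
      have h3 : ∫ t in x..(y n), F (x / t) ≤ ∫ _t in x..(y n), (1 : ℝ) := by
        refine intervalIntegral.integral_mono_on hnx
          (h2_intble hF hF1 hx0.le hx1 (hx1.trans hnx)) (by simp) fun t ht => ?_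
        have ht0 : 0 < t := by linarith [ht.1]
        refine ((hF1 (x / t) (by positivity)).2).trans ?_
        rw [div_le_one ht0]
        exact ht.1
      rw [intervalIntegral.integral_const, smul_eq_mul, mul_one] at h3
      linarith
    linarith
  have hJ0 : 0 ≤ ∫ u in (1 : ℝ)..x, F u / u ^ 2 := by
    refine intervalIntegral.integral_nonneg (hY1.trans hxY) fun u hu => ?_
    have hu0 : 0 < u := by linarith [hu.1]
    exact div_nonneg (hF1 u hu0.le).1 (by positivity)
  have hsub : ∑ d ∈ Icc 1 ⌊x⌋₊, g d ≤ ∑ d ∈ Icc 1 ⌊y n⌋₊, g d := by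
    refine sum_le_sum_of_subset_of_nonneg ?_ fun d _ _ => hg0 d
    exact Icc_subset_Icc_right (Nat.floor_mono hnx)
  have hmain := hsub.trans (hind n)
  have hL : x ≤ x * Real.log x / h := by
    rw [le_div_iff₀ hh0]
    refine mul_le_mul_of_nonneg_left ?_ hx0.le
    nlinarith
  have hL2 : x * K ≤ x * Real.log x / h := by
    rw [le_div_iff₀ hh0, mul_assoc]
    refine mul_le_mul_of_nonneg_left ?_ hx0.le
    nlinarith
  have hL3 : (n : ℝ) * (C * B * x / h ^ 2) ≤ 3 * C * B * (x * Real.log x / h) := by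
    calc (n : ℝ) * (C * B * x / h ^ 2) ≤ (2 * h * Real.log x + 1) * (C * B * x / h ^ 2) := by
          gcongr
      _ = 2 * C * B * (x * Real.log x / h) + C * B * (x / h ^ 2) := by field_simp
      _ ≤ 2 * C * B * (x * Real.log x / h) + C * B * (x * Real.log x / h) := by
          have : x / h ^ 2 ≤ x * Real.log x / h := by
            rw [div_le_div_iff₀ (by positivity) hh0]
            have h1 : x * h ≤ x * h * (Real.log x * h) := by
              have h2 : 1 ≤ Real.log x * h := by nlinarith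
              have h3 : 0 ≤ x * h := by positivity
              nlinarith
            nlinarith
          gcongr
      _ = 3 * C * B * (x * Real.log x / h) := by ring
  set Lx := x * Real.log x / h with hLx
  set J := ∫ u in (1 : ℝ)..x, F u / u ^ 2 with hJ
  have e1 : C * (∫ t in Y..y n, F (x / t)) ≤ C * (x * J + x) :=
    mul_le_mul_of_nonneg_left hint hC.le
  have e3 : C * x ≤ C * Lx := mul_le_mul_of_nonneg_left hL hC.le
  refine ⟨hx0, ?_⟩
  have hfin : ∑ d ∈ Icc 1 ⌊x⌋₊, g d ≤ C * (x * J) + (1 + C + 3 * C * B) * Lx := by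
    linarith [hmain, hsmall, hL2, hL3, e1, e3]
  exact hfin

theorem measurable_Sg (a : ℕ → ℂ) : Measurable (fun u : ℝ => ‖Sg a u‖) := by
  have h1 : Measurable (fun n : ℕ => ‖∑ m ∈ Icc 1 n, a m‖) := measurable_from_nat
  exact h1.comp Nat.measurable_floor

theorem sum_vM_le {u : ℝ} (hu : 0 ≤ u) :
    ∑ n ∈ Icc 1 ⌊u⌋₊, ArithmeticFunction.vonMangoldt n ≤ 6 * u := by
  have h1 := Chebyshev.psi_le_const_mul_self hu
  have h2 : Chebyshev.psi u = ∑ n ∈ Icc 1 ⌊u⌋₊, ArithmeticFunction.vonMangoldt n := by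
    unfold Chebyshev.psi
    rfl
  rw [← h2]
  have h3 : Real.log 4 ≤ 2 := by
    have h4 : (4 : ℝ) = 2 ^ 2 := by norm_num
    rw [h4, Real.log_pow]
    have := Real.log_two_lt_d9
    push_cast
    linarith
  nlinarith

theorem norm_Sg_le {a : ℕ → ℂ} (ha : ∀ n, ‖a n‖ ≤ ArithmeticFunction.vonMangoldt n) {u : ℝ}
    (hu : 0 ≤ u) : ‖Sg a u‖ ≤ 6 * u := by
  unfold Sg
  exact ((norm_sum_le _ _).trans (sum_le_sum fun n _ => ha n)).trans (sum_vM_le hu)

theorem Sg_diff {a : ℕ → ℂ} (ha : ∀ n, ‖a n‖ ≤ ArithmeticFunction.vonMangoldt n) {u v : ℝ}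
    (hvu : v ≤ u) : |‖Sg a u‖ - ‖Sg a v‖| ≤
      ∑ n ∈ IocN v u, ArithmeticFunction.vonMangoldt n := by
  refine (abs_norm_sub_norm_le _ _).trans ?_
  have h1 : Sg a u - Sg a v = ∑ n ∈ IocN v u, a n := by
    unfold Sg IocN
    have hfl : ⌊v⌋₊ ≤ ⌊u⌋₊ := Nat.floor_mono hvu
    have h2 : Icc 1 ⌊u⌋₊ = Icc 1 ⌊v⌋₊ ∪ Ioc ⌊v⌋₊ ⌊u⌋₊ := by
      ext n
      simp only [mem_Icc, mem_union, mem_Ioc]
      omega
    rw [h2, sum_union]
    · ring
    · rw [disjoint_left]
      intro n hn hn'
      rw [mem_Icc] at hn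
      rw [mem_Ioc] at hn'
      omega
  rw [h1]
  exact (norm_sum_le _ _).trans (sum_le_sum fun n _ => ha n)

theorem int_subst (f : ℝ → ℝ) {x : ℝ} (hx : 1 ≤ x) :
    ∫ u in (1 : ℝ)..x, f u / u ^ 2 =
      ∫ v in (0 : ℝ)..Real.log x, f (Real.exp v) * Real.exp (-v) := by
  have hlog : 0 ≤ Real.log x := Real.log_nonneg hx
  have himg : Real.exp '' Set.Icc 0 (Real.log x) = Set.Icc 1 x := by
    ext u
    constructor
    · rintro ⟨v, hv, rfl⟩
      constructor
      · exact Real.one_le_exp hv.1
      · rw [← Real.exp_log (show 0 < x by linarith)]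
        exact Real.exp_le_exp.2 hv.2
    · intro hu
      have hu0 : 0 < u := by linarith [hu.1]
      exact ⟨Real.log u, ⟨Real.log_nonneg hu.1, Real.log_le_log hu0 hu.2⟩, Real.exp_log hu0⟩
  have hcv := integral_image_eq_integral_abs_deriv_smul (s := Set.Icc 0 (Real.log x))
    (f := Real.exp) (f' := Real.exp) measurableSet_Icc
    (fun t _ => (Real.hasDerivAt_exp t).hasDerivWithinAt)
    (Real.exp_injective.injOn) (fun u => f u / u ^ 2)
  rw [himg] at hcv
  rw [intervalIntegral.integral_of_le hx, intervalIntegral.integral_of_le hlog,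
    ← integral_Icc_eq_integral_Ioc, ← integral_Icc_eq_integral_Ioc, hcv]
  refine setIntegral_congr_fun measurableSet_Icc fun v _ => ?_
  simp only [smul_eq_mul]
  rw [abs_of_pos (Real.exp_pos v), Real.exp_neg]
  have := (Real.exp_pos v).ne'
  field_simp

theorem st_AV (hBT : ST_BT) : ST_AV := by
  obtain ⟨C, hC, hBT⟩ := hBT
  refine ⟨6 * (1 + C + 3 * C * (C / 6)) + C, by positivity, ?_⟩
  intro h hh
  have hh0 : 0 < h := by linarith
  obtain ⟨y1, hy1⟩ := hBT h hh
  obtain ⟨x1, hx1⟩ := av_core hC (show 0 ≤ C / 6 by positivity) hh hy1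
  refine ⟨⌈2 * max y1 1⌉₊, max x1 1, ?_⟩
  intro y x a hy hx hyx ha hay
  have hyR : 2 * max y1 1 ≤ y := by
    have h1 := Nat.le_ceil (2 * max y1 1)
    have h2 : ((⌈2 * max y1 1⌉₊ : ℕ) : ℝ) ≤ y := by exact_mod_cast hy
    linarith
  have hxx : 1 ≤ x := (le_max_right _ _).trans hx
  set F : ℝ → ℝ := fun u => ‖Sg a u‖ / 6 with hF
  have hFm : Measurable F := (measurable_Sg a).div_const 6
  have hzero : ∀ u : ℝ, u ≤ y → Sg a u = 0 := by
    intro u hu
    unfold Sg
    refine sum_eq_zero fun n hn => ?_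
    rw [mem_Icc] at hn
    refine hay n ?_
    have h1 := Nat.floor_le_floor hu
    rw [Nat.floor_natCast] at h1
    omega
  obtain ⟨hx0, hmain⟩ := hx1 x F ((le_max_left _ _).trans hx) hFm
    (by
      intro u hu
      constructor
      · rw [hF]
        positivity
      · rw [hF]
        simp only
        have := norm_Sg_le ha hu
        linarith)
    (by
      intro u v hv hvu huv
      by_cases hcase : u ≤ y
      · rw [hF]
        simp only
        rw [hzero u hcase, hzero v (hvu.trans hcase)]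
        simp only [norm_zero, zero_div, sub_zero, abs_zero]
        positivity
      · have hvy : y1 ≤ v := by
          have h1 : u ≤ v * 2 := by
            refine huv.trans (mul_le_mul_of_nonneg_left ?_ hv.le)
            have : 1 / h ≤ 1 := by
              rw [div_le_one hh0]
              exact hh
            linarith
          have h2 : y1 ≤ max y1 1 := le_max_left _ _
          have h3 : (y : ℝ) < u := lt_of_not_ge hcase
          linarith
        have h1 := Sg_diff ha hvu
        have h2 := hy1 v hvy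
        have h3 : ∑ n ∈ IocN v u, ArithmeticFunction.vonMangoldt n ≤
            ∑ n ∈ IocN v (v + v / h), ArithmeticFunction.vonMangoldt n := by
          refine sum_le_sum_of_subset_of_nonneg ?_
            fun _ _ _ => ArithmeticFunction.vonMangoldt_nonneg
          unfold IocN
          refine Ioc_subset_Ioc_right (Nat.floor_mono ?_)
          have : v * (1 + 1 / h) = v + v / h := by
            field_simp
          linarith
        rw [hF]
        simp only
        rw [← sub_div, abs_div, abs_of_pos (show (0 : ℝ) < 6 by norm_num)]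
        have : C / 6 * (v / h) = (C * (v / h)) / 6 := by ring
        rw [this]
        exact div_le_div_of_nonneg_right (h1.trans (h3.trans h2)) (by norm_num))
  have hJ : ∫ u in (1 : ℝ)..x, F u / u ^ 2 =
      (∫ v in (0 : ℝ)..Real.log x, ‖Sg a (Real.exp v)‖ * Real.exp (-v)) / 6 := by
    rw [int_subst F hxx]
    rw [← intervalIntegral.integral_div]
    refine intervalIntegral.integral_congr fun v _ => ?_
    simp only [hF]
    ring
  have hI0 : 0 ≤ ∫ v in (0 : ℝ)..Real.log x, ‖Sg a (Real.exp v)‖ * Real.exp (-v) := by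
    refine intervalIntegral.integral_nonneg (Real.log_nonneg hxx) fun v _ => ?_
    positivity
  have hsum : ∑ d ∈ Icc 1 ⌊x⌋₊, ArithmeticFunction.vonMangoldt d * ‖Sg a (x / d)‖ =
      6 * ∑ d ∈ Icc 1 ⌊x⌋₊, ArithmeticFunction.vonMangoldt d * F (x / d) := by
    rw [mul_sum]
    refine sum_congr rfl fun d _ => ?_
    simp only [hF]
    ring
  rw [hsum]
  rw [hJ] at hmain
  set I := ∫ v in (0 : ℝ)..Real.log x, ‖Sg a (Real.exp v)‖ * Real.exp (-v) with hI
  have hL : 0 ≤ x * Real.log x / h := by
    have := Real.log_nonneg hxx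
    positivity
  have hxI : 0 ≤ x * I := by positivity
  have e1 : C * x * I ≤ (6 * (1 + C + 3 * C * (C / 6)) + C) * x * I := by
    have : 0 ≤ (6 * (1 + C + 3 * C * (C / 6))) * (x * I) := by positivity
    nlinarith
  have e2 : 6 * ((1 + C + 3 * C * (C / 6)) * (x * Real.log x / h)) ≤
      (6 * (1 + C + 3 * C * (C / 6)) + C) * x * Real.log x / h := by
    have : 0 ≤ C * (x * Real.log x / h) := by positivity
    have h2 : (6 * (1 + C + 3 * C * (C / 6)) + C) * x * Real.log x / h =
        6 * ((1 + C + 3 * C * (C / 6)) * (x * Real.log x / h)) + C * (x * Real.log x / h) := by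
      ring
    rw [h2]
    linarith
  calc 6 * ∑ d ∈ Icc 1 ⌊x⌋₊, ArithmeticFunction.vonMangoldt d * F (x / d)
      ≤ 6 * (C * (x * (I / 6)) + (1 + C + 3 * C * (C / 6)) * (x * Real.log x / h)) :=
        mul_le_mul_of_nonneg_left hmain (by norm_num)
    _ = C * x * I + 6 * ((1 + C + 3 * C * (C / 6)) * (x * Real.log x / h)) := by ring
    _ ≤ _ := add_le_add e1 e2

end Pool.Agent.Helper10.AA
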