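import Pool.Agent.Helper99.AA.Stmts

set_option autoImplicit false

/-! Row FIN of the project AA: from the intervals `(X, (1+η) X]` to almost all integers. -/

open Finset MeasureTheory
open scoped BigOperators Nat

namespace Pool.Agent.Helper10.AA

open Pool.Agent.Helper99.AA Pool.Agent.Helper40.MR

open Classical in
/-- Counting function of a set of integers. -/
noncomputable def cnt (P : ℕ → Prop) (x : ℝ) : ℝ := (((range (⌊x⌋₊ + 1)).filter P).card : ℝ)

open Classical in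
theorem cnt_step (P : ℕ → Prop) {x y : ℝ} :
    cnt P y ≤ cnt P x + (((IocN x y).filter P).card : ℝ) := by
  unfold cnt IocN
  have h : ((range (⌊y⌋₊ + 1)).filter P) ⊆
      ((range (⌊x⌋₊ + 1)).filter P) ∪ ((Ioc ⌊x⌋₊ ⌊y⌋₊).filter P) := by
    intro n hn
    rw [mem_filter, mem_range] at hn
    rw [mem_union, mem_filter, mem_filter, mem_range, mem_Ioc]
    by_cases hx : n < ⌊x⌋₊ + 1
    · exact Or.inl ⟨hx, hn.2⟩
    · exact Or.inr ⟨⟨by omega, by omega⟩, hn.2⟩
  have h2 := (card_le_card h).trans (card_union_le _ _)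
  exact_mod_cast h2

theorem cnt_le (P : ℕ → Prop) {x : ℝ} (hx : 0 ≤ x) : cnt P x ≤ x + 1 := by
  classical
  unfold cnt
  have h1 := card_filter_le (range (⌊x⌋₊ + 1)) P
  rw [card_range] at h1
  have h2 : ((((range (⌊x⌋₊ + 1)).filter P).card : ℕ) : ℝ) ≤ ((⌊x⌋₊ + 1 : ℕ) : ℝ) := by
    exact_mod_cast h1
  push_cast at h2
  have h3 := Nat.floor_le hx
  linarith

open Classical in
theorem cnt_iter (P : ℕ → Prop) {η e X₀ : ℝ} (hη : 0 < η) (he : 0 < e) (hX₀ : 0 ≤ X₀)
    (h : ∀ X : ℝ, X₀ ≤ X → (((IocN X ((1 + η) * X)).filter P).card : ℝ) ≤ e * X) :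
    ∀ (K : ℕ) (X : ℝ), X₀ ≤ X → cnt P ((1 + η) ^ K * X) ≤ X + 1 + e / η * ((1 + η) ^ K * X) := by
  intro K X hX
  have hX0 : 0 ≤ X := hX₀.trans hX
  have key : cnt P ((1 + η) ^ K * X) ≤ X + 1 + e / η * (((1 + η) ^ K - 1) * X) := by
    induction K with
    | zero =>
      rw [pow_zero, one_mul, sub_self, zero_mul, mul_zero, add_zero]
      exact cnt_le P hX0
    | succ K ih =>
      have h1 : 1 ≤ (1 + η) ^ K := one_le_pow₀ (by linarith)
      have h2 : X₀ ≤ (1 + η) ^ K * X := by nlinarith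
      have h3 := h _ h2
      have h4 := cnt_step P (x := (1 + η) ^ K * X) (y := (1 + η) * ((1 + η) ^ K * X))
      have h5 : (1 + η) ^ (K + 1) * X = (1 + η) * ((1 + η) ^ K * X) := by
        rw [pow_succ]
        ring
      rw [h5]
      have h6 : e / η * (((1 + η) ^ (K + 1) - 1) * X) =
          e / η * (((1 + η) ^ K - 1) * X) + e * ((1 + η) ^ K * X) := by
        rw [pow_succ]
        field_simp
        ring
      rw [h6]
      linarith
  refine key.trans ?_
  have h1 : 0 ≤ e / η * X := by positivity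
  have h2 : e / η * (((1 + η) ^ K - 1) * X) = e / η * ((1 + η) ^ K * X) - e / η * X := by ring
  rw [h2]
  linarith

theorem st_FIN (hBN : ST_BN) : ST_FIN := by
  classical
  intro ε hε
  obtain ⟨P, hP⟩ : ∃ P : ℕ → Prop, ∀ n : ℕ, P n ↔ ¬ ∃ m : ℕ, m < n ∧ 1 < m ∧ ¬ Nat.Prime m ∧
    (n : ℝ) + (1 - ε) * Real.sqrt (n : ℝ) ≤ (m : ℝ) + (Nat.minFac m : ℝ) :=
      ⟨_, fun _ => Iff.rfl⟩
  set η : ℝ := min (ε / 5) (1 / 10) with hη
  have hη0 : 0 < η := by
    rw [hη]
    exact lt_min (by positivity) (by norm_num)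
  have hη1 : η ≤ 1 / 10 := min_le_right _ _
  have hη2 : 5 * η ≤ ε := by
    have : η ≤ ε / 5 := min_le_left _ _
    linarith
  have hbad : ∀ n : ℕ, P n → ¬ ∃ p q : ℕ, p.Prime ∧ q.Prime ∧ p * q < n ∧
      (n : ℝ) - η * Real.sqrt n ≤ ((p * q : ℕ) : ℝ) ∧ (1 - 4 * η) * Real.sqrt n ≤ p ∧
      (1 - 4 * η) * Real.sqrt n ≤ q := by
    rintro n hn ⟨p, q, hp, hq, h1, h2, h3, h4⟩
    apply (hP n).1 hn
    have hpq : 1 < p * q := Nat.one_lt_mul_iff.2 ⟨hp.pos, hq.pos, Or.inl hp.one_lt⟩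
    refine ⟨p * q, h1, hpq, Nat.not_prime_mul hp.ne_one hq.ne_one, ?_⟩
    have hr := Nat.minFac_prime hpq.ne'
    have hr2 : (1 - 4 * η) * Real.sqrt n ≤ (Nat.minFac (p * q) : ℝ) := by
      rcases (hr.dvd_mul).1 (Nat.minFac_dvd (p * q)) with h | h
      · rw [(Nat.prime_dvd_prime_iff_eq hr hp).1 h]
        exact h3
      · rw [(Nat.prime_dvd_prime_iff_eq hr hq).1 h]
        exact h4
    have hs : 0 ≤ Real.sqrt n := Real.sqrt_nonneg _
    nlinarith
  have hcnt : ∀ δ : ℝ, 0 < δ → ∃ N₀ : ℝ, ∀ N : ℝ, N₀ ≤ N → cnt P N ≤ δ * N := by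
    intro δ hδ
    obtain ⟨X₀, hX₀⟩ := hBN η (δ * η / 4) hη0 hη1 (by positivity)
    obtain ⟨K, hK⟩ := exists_nat_gt (4 / δ / η)
    have hKpow : 4 / δ ≤ (1 + η) ^ K := by
      have h1 := one_add_mul_le_pow (show (-2 : ℝ) ≤ η by linarith) K
      have h2 : 4 / δ < K * η := by rwa [div_lt_iff₀ hη0] at hK
      linarith
    have hKpos : 0 < (1 + η) ^ K := by positivity
    refine ⟨max ((1 + η) ^ K * max X₀ 1) (4 / δ), ?_⟩
    intro N hN
    have hN1 : (1 + η) ^ K * max X₀ 1 ≤ N := (le_max_left _ _).trans hN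
    have hN2 : 4 / δ ≤ N := (le_max_right _ _).trans hN
    have hN0 : 0 < N := lt_of_lt_of_le (by positivity) hN2
    have hX : max X₀ 1 ≤ N / (1 + η) ^ K := by
      rw [le_div_iff₀ hKpos]
      linarith
    have h1 := cnt_iter P (η := η) (e := δ * η / 4) (X₀ := max X₀ 1) hη0 (by positivity)
      (by positivity) (by
        intro X hXX
        refine le_trans ?_ (hX₀ X ((le_max_left _ _).trans hXX))
        refine Nat.cast_le.2 (card_le_card fun n hn => ?_)
        rw [mem_filter] at hn ⊢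
        exact ⟨hn.1, hbad n hn.2⟩) K (N / (1 + η) ^ K) hX
    have h2 : (1 + η) ^ K * (N / (1 + η) ^ K) = N := by
      field_simp
    rw [h2] at h1
    refine h1.trans ?_
    have h3 : δ * η / 4 / η = δ / 4 := by
      field_simp
    rw [h3]
    have h4 : N / (1 + η) ^ K ≤ δ / 4 * N := by
      rw [div_le_iff₀ hKpos]
      have h5 : 1 ≤ δ / 4 * (1 + η) ^ K := by
        have h6 : δ / 4 * (4 / δ) ≤ δ / 4 * (1 + η) ^ K :=
          mul_le_mul_of_nonneg_left hKpow (by positivity)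
        have h7 : δ / 4 * (4 / δ) = 1 := by
          field_simp
        linarith
      nlinarith
    have h5 : 1 ≤ δ / 4 * N := by
      have h6 : δ / 4 * (4 / δ) ≤ δ / 4 * N := mul_le_mul_of_nonneg_left hN2 (by positivity)
      have h7 : δ / 4 * (4 / δ) = 1 := by
        field_simp
      linarith
    have h6 : 0 ≤ δ * N := by positivity
    linarith
  rw [Metric.tendsto_atTop]
  intro δ hδ
  obtain ⟨N₀, hN₀⟩ := hcnt (δ / 2) (by positivity)
  refine ⟨max ⌈N₀⌉₊ 1, fun N hN => ?_⟩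
  have hN1 : 1 ≤ N := (le_max_right _ _).trans hN
  have hN2 : N₀ ≤ N := by
    have h1 := Nat.le_ceil N₀
    have h2 : ((⌈N₀⌉₊ : ℕ) : ℝ) ≤ N := by exact_mod_cast (le_max_left _ _).trans hN
    linarith
  have hNR : (0 : ℝ) < N := by exact_mod_cast hN1
  have h1 := hN₀ N hN2
  rw [Real.dist_eq, sub_zero, abs_of_nonneg (by positivity), div_lt_iff₀ hNR]
  have h3 : cnt P (N : ℝ) < δ * N := by
    have : 0 < δ * N := by positivity
    linarith
  unfold cnt at h3
  rw [Nat.floor_natCast] at h3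
  refine lt_of_le_of_lt (Nat.cast_le.2 (card_le_card fun n hn => ?_)) h3
  rw [mem_filter] at hn ⊢
  exact ⟨hn.1, (hP n).2 hn.2⟩

end Pool.Agent.Helper10.AA
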