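import Pool.Agent.Helper99.AA.Stmts

set_option autoImplicit false

/-! Row HS of the project AA: Selberg's identity with the bound for the sums over rough numbers. -/

open Finset
open scoped BigOperators

namespace Pool.Agent.Helper10.AA

open Pool.Agent.Helper99.AA Pool.Agent.Helper40.MR

theorem ro_eq_zero {y d : ℕ} (h1 : 1 < d) (h2 : d ≤ y) : ro y d = 0 := by
  unfold ro
  rw [if_neg]
  intro h
  have hp := Nat.minFac_prime (show d ≠ 1 by omega)
  have := h _ hp (Nat.minFac_dvd d)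
  have h3 := Nat.minFac_le (show 0 < d by omega)
  omega

theorem norm_ro_one (y : ℕ) : ‖ro y 1‖ ≤ 1 := by
  unfold ro
  split_ifs <;> simp

theorem Ph_two_zero {y : ℕ} {N t : ℝ} (h : N < y) : Ph 2 y N t = 0 := by
  unfold Ph Sg
  apply Finset.sum_eq_zero
  intro n hn
  rw [Finset.mem_Icc] at hn
  rcases Nat.eq_or_lt_of_le hn.1 with h1 | h1
  · subst h1
    simp
  · have hN : 0 ≤ N := by
      by_contra hc
      have : ⌊N⌋₊ = 0 := Nat.floor_of_nonpos (by linarith)
      omega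
    have h2 : (n : ℝ) < y := lt_of_le_of_lt ((Nat.le_floor_iff hN).1 hn.2) h
    have h3 : n ≤ y := by exact_mod_cast h2.le
    simp only [rt, ro_eq_zero h1 h3, zero_mul, mul_zero]

/-- Sum over blocks. -/
theorem block {C₁ : ℝ} (hRS : ∀ (y : ℕ) (N : ℝ), 2 ≤ y → (y : ℝ) ≤ N →
    ∑ n ∈ Icc 1 ⌊N⌋₊, ‖ro y n‖ ≤ C₁ * (N / Real.log y))
    {y : ℕ} {x : ℝ} (hy : 2 ≤ y) (hx : 1 ≤ x) (f G : ℕ → ℝ) (hG : ∀ j, 0 ≤ G j)
    (hf : ∀ d : ℕ, y < d → (d : ℝ) ≤ x → f d ≤ G ⌊Real.log (x / d)⌋₊)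
    (hC : 0 ≤ C₁) :
    ∑ d ∈ (Icc 1 ⌊x⌋₊).filter (fun d => y < d), ‖ro y d‖ * f d ≤
      ∑ j ∈ range (⌊Real.log x⌋₊ + 1), G j * (C₁ * (x * Real.exp (-(j : ℝ)) / Real.log y)) := by
  have hlogy : 0 < Real.log y := Real.log_pos (by exact_mod_cast hy)
  have hmaps : ∀ d ∈ (Icc 1 ⌊x⌋₊).filter (fun d => y < d),
      ⌊Real.log (x / d)⌋₊ ∈ range (⌊Real.log x⌋₊ + 1) := by
    intro d hd
    rw [Finset.mem_filter, Finset.mem_Icc] at hd
    rw [Finset.mem_range]
    have hd1 : (1 : ℝ) ≤ d := by exact_mod_cast hd.1.1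
    have h1 : Real.log (x / d) ≤ Real.log x := by
      apply Real.log_le_log (by positivity)
      exact div_le_self (by linarith) hd1
    have := Nat.floor_le_floor h1
    omega
  rw [← Finset.sum_fiberwise_of_maps_to hmaps]
  apply Finset.sum_le_sum
  intro j _
  set s := ((Icc 1 ⌊x⌋₊).filter (fun d => y < d)).filter
    (fun d : ℕ => ⌊Real.log (x / d)⌋₊ = j) with hs
  by_cases hne : s.Nonempty
  · obtain ⟨d₀, hd₀⟩ := hne
    have key : ∀ d ∈ s, (1 ≤ d ∧ y < d ∧ (d : ℝ) ≤ x) ∧ ⌊Real.log (x / d)⌋₊ = j ∧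
        (d : ℝ) ≤ x * Real.exp (-(j : ℝ)) := by
      intro d hd
      rw [hs, Finset.mem_filter, Finset.mem_filter, Finset.mem_Icc] at hd
      have hdx : (d : ℝ) ≤ x := (Nat.le_floor_iff (by linarith)).1 hd.1.1.2
      have hd0 : (0 : ℝ) < d := by
        have := hd.1.1.1
        exact_mod_cast this
      refine ⟨⟨hd.1.1.1, hd.1.2, hdx⟩, hd.2, ?_⟩
      have h1 : (1 : ℝ) ≤ x / d := by rwa [le_div_iff₀ hd0, one_mul]
      have h2 : (j : ℝ) ≤ Real.log (x / d) := by
        rw [← hd.2]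
        exact Nat.floor_le (Real.log_nonneg h1)
      have h3 : Real.exp j ≤ x / d := by
        rw [← Real.exp_log (show (0:ℝ) < x / d by linarith)]
        exact Real.exp_le_exp.2 h2
      rw [le_div_iff₀ hd0] at h3
      rw [Real.exp_neg, ← div_eq_mul_inv, le_div_iff₀ (Real.exp_pos _)]
      linarith
    have hyN : (y : ℝ) ≤ x * Real.exp (-(j : ℝ)) := by
      have h1 := key d₀ hd₀
      have h2 : (y : ℝ) ≤ d₀ := by exact_mod_cast h1.1.2.1.le
      linarith [h1.2.2]
    calc ∑ d ∈ s, ‖ro y d‖ * f d ≤ ∑ d ∈ s, ‖ro y d‖ * G j := by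
          apply Finset.sum_le_sum
          intro d hd
          apply mul_le_mul_of_nonneg_left _ (norm_nonneg _)
          have h1 := key d hd
          have h2 := hf d h1.1.2.1 h1.1.2.2
          rw [h1.2.1] at h2
          exact h2
      _ = G j * ∑ d ∈ s, ‖ro y d‖ := by rw [← Finset.sum_mul, mul_comm]
      _ ≤ G j * ∑ d ∈ Icc 1 ⌊x * Real.exp (-(j : ℝ))⌋₊, ‖ro y d‖ := by
          apply mul_le_mul_of_nonneg_left _ (hG j)
          apply Finset.sum_le_sum_of_subset_of_nonneg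
          · intro d hd
            have h1 := key d hd
            rw [Finset.mem_Icc]
            exact ⟨h1.1.1, Nat.le_floor h1.2.2⟩
          · intro _ _ _
            exact norm_nonneg _
      _ ≤ _ := mul_le_mul_of_nonneg_left (hRS y _ hy hyN) (hG j)
  · rw [Finset.not_nonempty_iff_eq_empty] at hne
    rw [hne, Finset.sum_empty]
    have := hG j
    positivity

theorem sq_exp {u : ℝ} (hu : 0 ≤ u) : u ^ 2 * Real.exp (-u) ≤ 8 * Real.exp (-(u / 2)) := by
  have h1 : u ^ 2 ≤ 8 * Real.exp (u / 2) := by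
    have := Real.quadratic_le_exp_of_nonneg (show 0 ≤ u / 2 by linarith)
    nlinarith
  calc u ^ 2 * Real.exp (-u) ≤ 8 * Real.exp (u / 2) * Real.exp (-u) :=
        mul_le_mul_of_nonneg_right h1 (Real.exp_pos _).le
    _ = 8 * Real.exp (-(u / 2)) := by
        rw [mul_assoc, ← Real.exp_add]
        congr 2
        ring

theorem sum_exp {L : ℝ} (hL : 1 ≤ L) (J : ℕ) :
    ∑ j ∈ range J, ((j : ℝ) + 1) ^ 2 * Real.exp (-(j / L)) ≤ 60 * L ^ 3 := by
  have hL0 : 0 < L := by linarith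
  set r := Real.exp (-(1 / (2 * L))) with hr
  have hr0 : 0 < r := Real.exp_pos _
  have hr1 : r < 1 := by
    rw [hr, Real.exp_lt_one_iff]
    have : 0 < 1 / (2 * L) := by positivity
    linarith
  have hterm : ∀ j : ℕ, ((j : ℝ) + 1) ^ 2 * Real.exp (-(j / L)) ≤ 24 * L ^ 2 * (r * r ^ j) := by
    intro j
    have h1 := sq_exp (show 0 ≤ ((j : ℝ) + 1) / L by positivity)
    have h2 : ((j : ℝ) + 1) ^ 2 * Real.exp (-(j / L)) =
        L ^ 2 * Real.exp (1 / L) * ((((j : ℝ) + 1) / L) ^ 2 * Real.exp (-(((j : ℝ) + 1) / L))) := by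
      have : Real.exp (-(j / L)) = Real.exp (1 / L) * Real.exp (-(((j : ℝ) + 1) / L)) := by
        rw [← Real.exp_add]
        congr 1
        field_simp
        ring
      rw [this]
      field_simp
    have h3 : Real.exp (-(((j : ℝ) + 1) / L / 2)) = r * r ^ j := by
      rw [← pow_succ', hr, ← Real.exp_nat_mul]
      congr 1
      push_cast
      field_simp
    rw [h3] at h1
    have h4 : Real.exp (1 / L) ≤ 3 := by
      have h5 : Real.exp (1 / L) ≤ Real.exp 1 := by
        apply Real.exp_le_exp.2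
        rw [div_le_one hL0]
        exact hL
      have := Real.exp_one_lt_d9
      linarith
    rw [h2]
    calc L ^ 2 * Real.exp (1 / L) * ((((j : ℝ) + 1) / L) ^ 2 * Real.exp (-(((j : ℝ) + 1) / L)))
        ≤ L ^ 2 * 3 * (8 * (r * r ^ j)) := by
          apply mul_le_mul
          · exact mul_le_mul_of_nonneg_left h4 (by positivity)
          · exact h1
          · positivity
          · positivity
      _ = 24 * L ^ 2 * (r * r ^ j) := by ring
  have hgeo : ∑ j ∈ range J, r ^ j ≤ 1 / (1 - r) := by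
    rw [geom_sum_eq hr1.ne]
    rw [show (r ^ J - 1) / (r - 1) = (1 - r ^ J) / (1 - r) by
      rw [← neg_sub 1 (r ^ J), ← neg_sub 1 r, neg_div_neg_eq]]
    apply div_le_div_of_nonneg_right _ (by linarith)
    have := pow_pos hr0 J
    linarith
  have hr2 : r * (1 / (1 - r)) ≤ 2 * L := by
    rw [mul_one_div, div_le_iff₀ (by linarith)]
    have h1 : 1 + 1 / (2 * L) ≤ Real.exp (1 / (2 * L)) := by
      have := Real.add_one_le_exp (1 / (2 * L))
      linarith
    have h2 : r * Real.exp (1 / (2 * L)) = 1 := by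
      rw [hr, ← Real.exp_add]
      simp
    have h3 : r * (1 + 1 / (2 * L)) ≤ 1 :=
      le_trans (mul_le_mul_of_nonneg_left h1 hr0.le) h2.le
    have h4 : 2 * L * (r * (1 + 1 / (2 * L))) ≤ 2 * L * 1 :=
      mul_le_mul_of_nonneg_left h3 (by positivity)
    have h5 : 2 * L * (r * (1 + 1 / (2 * L))) = 2 * L * r + r := by
      field_simp
    rw [h5] at h4
    nlinarith
  calc ∑ j ∈ range J, ((j : ℝ) + 1) ^ 2 * Real.exp (-(j / L))
      ≤ ∑ j ∈ range J, 24 * L ^ 2 * (r * r ^ j) := Finset.sum_le_sum fun j _ => hterm j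
    _ = 24 * L ^ 2 * (r * ∑ j ∈ range J, r ^ j) := by
        rw [← Finset.mul_sum, ← Finset.mul_sum]
    _ ≤ 24 * L ^ 2 * (2 * L) := by
        apply mul_le_mul_of_nonneg_left _ (by positivity)
        exact (mul_le_mul_of_nonneg_left hgeo hr0.le).trans hr2
    _ ≤ 60 * L ^ 3 := by
        have : 0 < L ^ 3 := by positivity
        nlinarith

/-- The sum over rough numbers in Selberg's identity. -/
theorem rough_sum {C₁ C₂ : ℝ} (hC₁ : 0 < C₁) (hC₂ : 0 < C₂)
    (hRS : ∀ (y : ℕ) (N : ℝ), 2 ≤ y → (y : ℝ) ≤ N →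
      ∑ n ∈ Icc 1 ⌊N⌋₊, ‖ro y n‖ ≤ C₁ * (N / Real.log y))
    {y : ℕ} {x t : ℝ} (hy : 3 ≤ y) (hx : (y : ℝ) ^ 2 ≤ x) (ht : 1 ≤ |t|)
    (hPS : ∀ N : ℝ, (y : ℝ) ≤ N → ‖Ph 2 y N t‖ ≤ C₂ * (Real.log N ^ 2 * (N / Real.log y) *
      (1 / |t| + Real.exp (-(Real.log N / Real.log y))))) :
    ∑ d ∈ Icc 1 ⌊x⌋₊, ‖ro y d‖ * ‖Ph 2 y (x / d) t‖ ≤
      (8 * C₂ + 180 * C₁ * C₂) *
        (x * Real.log y + x * Real.log x ^ 3 / (Real.log y ^ 2 * |t|)) := by
  have hyR : (3 : ℝ) ≤ y := by exact_mod_cast hy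
  have hL1 : 1 ≤ Real.log y := by
    have h1 : Real.exp 1 ≤ y := by
      have := Real.exp_one_lt_d9
      linarith
    rw [← Real.log_exp 1]
    exact Real.log_le_log (Real.exp_pos _) h1
  have hyx : (y : ℝ) ≤ x := by nlinarith
  have hx1 : 1 ≤ x := by linarith
  have hLX : Real.log y ≤ Real.log x := Real.log_le_log (by linarith) hyx
  set L := Real.log y with hL
  set X := Real.log x with hX
  have hX1 : 1 ≤ X := by linarith
  have htp : 0 < |t| := by linarith
  -- split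
  have hsplit : ∑ d ∈ Icc 1 ⌊x⌋₊, ‖ro y d‖ * ‖Ph 2 y (x / d) t‖ ≤
      ‖Ph 2 y x t‖ + ∑ d ∈ (Icc 1 ⌊x⌋₊).filter (fun d => y < d), ‖ro y d‖ * ‖Ph 2 y (x / d) t‖ := by
    rw [← Finset.sum_filter_add_sum_filter_not (Icc 1 ⌊x⌋₊) (fun d => y < d)]
    rw [add_comm]
    apply add_le_add_left
    have hsub : ∀ d ∈ (Icc 1 ⌊x⌋₊).filter (fun d => ¬ y < d), d ∉ ({1} : Finset ℕ) →
        ‖ro y d‖ * ‖Ph 2 y (x / d) t‖ = 0 := by
      intro d hd hd1
      rw [Finset.mem_filter, Finset.mem_Icc] at hd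
      rw [Finset.mem_singleton] at hd1
      rw [ro_eq_zero (by omega) (by omega)]
      simp
    have h1 : ({1} : Finset ℕ) ⊆ (Icc 1 ⌊x⌋₊).filter (fun d => ¬ y < d) := by
      intro d hd
      rw [Finset.mem_singleton] at hd
      subst hd
      rw [Finset.mem_filter, Finset.mem_Icc]
      refine ⟨⟨le_refl 1, ?_⟩, by omega⟩
      exact Nat.le_floor (by exact_mod_cast hx1)
    rw [← Finset.sum_subset h1 hsub, Finset.sum_singleton]
    have h2 := norm_ro_one y
    have h3 := norm_nonneg (Ph 2 y x t)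
    have h4 : x / ((1 : ℕ) : ℝ) = x := by simp
    rw [h4]
    nlinarith
  refine hsplit.trans ?_
  -- the term d = 1
  have hone : ‖Ph 2 y x t‖ ≤ 8 * C₂ * (x * L + x * X ^ 3 / (L ^ 2 * |t|)) := by
    refine (hPS x hyx).trans ?_
    have h1 : X ^ 2 * (x / L) * (1 / |t|) ≤ x * X ^ 3 / (L ^ 2 * |t|) := by
      rw [show X ^ 2 * (x / L) * (1 / |t|) = x * X ^ 2 * L / (L ^ 2 * |t|) by
        field_simp]
      apply div_le_div_of_nonneg_right _ (by positivity)
      have : x * X ^ 2 * L ≤ x * X ^ 2 * X := mul_le_mul_of_nonneg_left hLX (by positivity)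
      linarith
    have h2 : X ^ 2 * (x / L) * Real.exp (-(X / L)) ≤ 8 * (x * L) := by
      have h3 := sq_exp (show 0 ≤ X / L by positivity)
      have h4 : Real.exp (-(X / L / 2)) ≤ 1 := by
        rw [Real.exp_le_one_iff]
        have : 0 ≤ X / L / 2 := by positivity
        linarith
      have h5 : X ^ 2 * (x / L) * Real.exp (-(X / L)) =
          x * L * ((X / L) ^ 2 * Real.exp (-(X / L))) := by
        field_simp
      rw [h5]
      have h6 : 0 ≤ x * L := by positivity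
      nlinarith
    have h3 : 0 ≤ x * X ^ 3 / (L ^ 2 * |t|) := by positivity
    have h4 : Real.log x ^ 2 * (x / L) * (1 / |t| + Real.exp (-(Real.log x / L))) ≤
        8 * (x * L + x * X ^ 3 / (L ^ 2 * |t|)) := by
      rw [← hX, mul_add]
      linarith
    calc C₂ * (Real.log x ^ 2 * (x / L) * (1 / |t| + Real.exp (-(Real.log x / L))))
        ≤ C₂ * (8 * (x * L + x * X ^ 3 / (L ^ 2 * |t|))) :=
          mul_le_mul_of_nonneg_left h4 hC₂.le
      _ = _ := by ring
  -- the blocks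
  set G : ℕ → ℝ := fun j => C₂ * (((j : ℝ) + 1) ^ 2 * (Real.exp ((j : ℝ) + 1) / L) *
    (1 / |t| + Real.exp (-(j / L)))) with hG
  have hG0 : ∀ j, 0 ≤ G j := by
    intro j
    rw [hG]
    positivity
  have hblock := block hRS (show 2 ≤ y by omega) hx1 (fun d => ‖Ph 2 y (x / d) t‖) G hG0
    (by
      intro d hd1 hd2
      have hd0 : (0 : ℝ) < d := by
        have : 0 < d := by omega
        exact_mod_cast this
      by_cases hcase : (y : ℝ) ≤ x / d
      · have h1 := hPS _ hcase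
        have h1x : 1 ≤ x / d := by linarith
        have hpos : 0 < x / d := by linarith
        have h2 : Real.log (x / d) ≤ (⌊Real.log (x / d)⌋₊ : ℝ) + 1 :=
          (Nat.lt_floor_add_one _).le
        have h3 : (⌊Real.log (x / d)⌋₊ : ℝ) ≤ Real.log (x / d) :=
          Nat.floor_le (Real.log_nonneg h1x)
        set j := ⌊Real.log (x / d)⌋₊ with hj
        have h4 : x / d ≤ Real.exp ((j : ℝ) + 1) := by
          rw [← Real.exp_log hpos]
          exact Real.exp_le_exp.2 h2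
        have h0 : 0 ≤ Real.log (x / d) := Real.log_nonneg h1x
        refine h1.trans ?_
        rw [hG]
        apply mul_le_mul_of_nonneg_left _ hC₂.le
        apply mul_le_mul
        · apply mul_le_mul
          · exact pow_le_pow_left₀ h0 h2 2
          · exact div_le_div_of_nonneg_right h4 (by positivity)
          · positivity
          · positivity
        · apply add_le_add le_rfl
          apply Real.exp_le_exp.2
          apply neg_le_neg
          exact div_le_div_of_nonneg_right h3 (by positivity)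
        · positivity
        · positivity
      · rw [Ph_two_zero (lt_of_not_ge hcase), norm_zero]
        exact hG0 _) hC₁.le
  have hsum : ∑ j ∈ range (⌊X⌋₊ + 1), G j * (C₁ * (x * Real.exp (-(j : ℝ)) / L)) ≤
      180 * C₁ * C₂ * (x * L + x * X ^ 3 / (L ^ 2 * |t|)) := by
    have h1 : ∀ j : ℕ, G j * (C₁ * (x * Real.exp (-(j : ℝ)) / L)) =
        C₁ * C₂ * (Real.exp 1 * x / L ^ 2) * ((((j : ℝ) + 1) ^ 2) * (1 / |t|) +
          ((j : ℝ) + 1) ^ 2 * Real.exp (-(j / L))) := by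
      intro j
      rw [hG]
      have h2 : Real.exp ((j : ℝ) + 1) * Real.exp (-(j : ℝ)) = Real.exp 1 := by
        rw [← Real.exp_add]
        congr 1
        ring
      calc _ = C₁ * C₂ * ((Real.exp ((j : ℝ) + 1) * Real.exp (-(j : ℝ))) * x / L ^ 2) *
          ((((j : ℝ) + 1) ^ 2) * (1 / |t|) + ((j : ℝ) + 1) ^ 2 * Real.exp (-(j / L))) := by
            field_simp
        _ = _ := by rw [h2]
    rw [Finset.sum_congr rfl fun j _ => h1 j, ← Finset.mul_sum, Finset.sum_add_distrib]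
    have h3 := sum_exp hL1 (⌊X⌋₊ + 1)
    have h4 : ∑ j ∈ range (⌊X⌋₊ + 1), (((j : ℝ) + 1) ^ 2) * (1 / |t|) ≤ 8 * X ^ 3 / |t| := by
      have hfl : (⌊X⌋₊ : ℝ) ≤ X := Nat.floor_le (by linarith)
      calc ∑ j ∈ range (⌊X⌋₊ + 1), (((j : ℝ) + 1) ^ 2) * (1 / |t|)
          ≤ ∑ j ∈ range (⌊X⌋₊ + 1), (2 * X) ^ 2 * (1 / |t|) := by
            apply Finset.sum_le_sum
            intro j hj
            rw [Finset.mem_range] at hj
            have hjX : (j : ℝ) ≤ X := by
              have : (j : ℝ) ≤ ⌊X⌋₊ := by exact_mod_cast (by omega : j ≤ ⌊X⌋₊)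
              linarith
            apply mul_le_mul_of_nonneg_right _ (by positivity)
            exact pow_le_pow_left₀ (by positivity) (by linarith) 2
        _ = ((⌊X⌋₊ : ℝ) + 1) * ((2 * X) ^ 2 * (1 / |t|)) := by
            rw [Finset.sum_const, Finset.card_range, nsmul_eq_mul]
            push_cast
            ring
        _ ≤ (2 * X) * ((2 * X) ^ 2 * (1 / |t|)) := by
            apply mul_le_mul_of_nonneg_right _ (by positivity)
            linarith
        _ = 8 * X ^ 3 / |t| := by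
            field_simp
            ring
    have he : Real.exp 1 ≤ 3 := by
      have := Real.exp_one_lt_d9
      linarith
    calc C₁ * C₂ * (Real.exp 1 * x / L ^ 2) *
        (∑ j ∈ range (⌊X⌋₊ + 1), (((j : ℝ) + 1) ^ 2) * (1 / |t|) +
          ∑ j ∈ range (⌊X⌋₊ + 1), ((j : ℝ) + 1) ^ 2 * Real.exp (-(j / L)))
        ≤ C₁ * C₂ * (3 * x / L ^ 2) * (8 * X ^ 3 / |t| + 60 * L ^ 3) := by
          apply mul_le_mul
          · apply mul_le_mul_of_nonneg_left _ (by positivity)
            apply div_le_div_of_nonneg_right _ (by positivity)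
            exact mul_le_mul_of_nonneg_right he (by linarith)
          · exact add_le_add h4 h3
          · positivity
          · positivity
      _ = C₁ * C₂ * (24 * (x * X ^ 3 / (L ^ 2 * |t|)) + 180 * (x * L)) := by
          field_simp
          ring
      _ ≤ _ := by
          have h5 : 0 ≤ x * X ^ 3 / (L ^ 2 * |t|) := by positivity
          have h6 : 0 ≤ C₁ * C₂ := by positivity
          have h7 : 24 * (x * X ^ 3 / (L ^ 2 * |t|)) + 180 * (x * L) ≤
              180 * (x * L + x * X ^ 3 / (L ^ 2 * |t|)) := by linarith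
          calc _ ≤ C₁ * C₂ * (180 * (x * L + x * X ^ 3 / (L ^ 2 * |t|))) :=
                mul_le_mul_of_nonneg_left h7 h6
            _ = _ := by ring
  calc ‖Ph 2 y x t‖ + ∑ d ∈ (Icc 1 ⌊x⌋₊).filter (fun d => y < d),
        ‖ro y d‖ * ‖Ph 2 y (x / d) t‖
      ≤ 8 * C₂ * (x * L + x * X ^ 3 / (L ^ 2 * |t|)) +
        180 * C₁ * C₂ * (x * L + x * X ^ 3 / (L ^ 2 * |t|)) :=
        add_le_add hone (hblock.trans hsum)
    _ = _ := by ring

theorem st_HS (hSI : ST_SI) (hPS : ST_PS) (hRS : ST_RS) : ST_HS := by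
  obtain ⟨C₁, hC₁, hRS⟩ := hRS
  obtain ⟨C₂, hC₂, hPS⟩ := hPS
  refine ⟨8 * C₂ + 180 * C₁ * C₂ + 6, by positivity, ?_⟩
  intro A hA
  obtain ⟨y₀, hy₀, hPS⟩ := hPS A hA
  refine ⟨max y₀ 3, by omega, ?_⟩
  intro y x t hy hx ht htA
  have hy1 : y₀ ≤ y := le_trans (le_max_left _ _) hy
  have hy3 : 3 ≤ y := le_trans (le_max_right _ _) hy
  have hyR : (3 : ℝ) ≤ y := by exact_mod_cast hy3
  have hL1 : 1 ≤ Real.log y := by
    have h1 : Real.exp 1 ≤ y := by
      have := Real.exp_one_lt_d9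
      linarith
    rw [← Real.log_exp 1]
    exact Real.log_le_log (Real.exp_pos _) h1
  have hyx : (y : ℝ) ≤ x := by nlinarith
  have hx1 : 1 ≤ x := by linarith
  have hLX : Real.log y ≤ Real.log x := Real.log_le_log (by linarith) hyx
  have h1 := hSI y x t (by omega) hx1
  have h2 := rough_sum hC₁ hC₂ hRS hy3 hx ht
    (fun N hN => hPS 2 y t N le_rfl hy1 ht htA hN)
  have htp : 0 < |t| := by linarith
  have hX1 : 1 ≤ Real.log x := by linarith
  have h3 : (x * Real.log x) * (Real.log y / Real.log x +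
      (Real.log x / Real.log y) ^ 2 / |t|) =
      x * Real.log y + x * Real.log x ^ 3 / (Real.log y ^ 2 * |t|) := by
    field_simp
  have h4 : 0 ≤ x * Real.log x ^ 3 / (Real.log y ^ 2 * |t|) := by positivity
  have h5 : x ≤ x * Real.log y := by nlinarith
  rw [mul_assoc (8 * C₂ + 180 * C₁ * C₂ + 6), h3]
  nlinarith

end Pool.Agent.Helper10.AA
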